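import Pool.Agent.H46.D2.Tri3
import Pool.Agent.H87.GEN.Cbr

/-!
# Separated lines through the exact point

`sep_fam`: from the absence of relations for the first coordinate, through most points there are
`N + 1` lines of the event whose velocities in the direction of `c 0` are separated.
-/

set_option autoImplicit false

namespace Pool.NVX

open Finset Real MvPolynomial
open Pool.Agent.H49.Ent Pool.Agent.H32.Dense Pool.STK Pool.KA Pool.KSAT Pool.K2S Pool.PB Pool.S6C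
open Pool.GEN Pool.CHT
open Pool.SEP46 (sep_cover Pe_cover)

variable {m J : ℕ}

/-- The position from the exact point. -/
theorem x_ptr (F : Fam m J) (ω : F.Ω) (k : Fin m) :
    |F.x ω k - ((ptr F J ω).1 k : ℝ) / 2 ^ J| ≤ 1 / 2 ^ J := by
  have e1 : (ptr F J ω).1 k = ⌊(2 : ℝ) ^ J * F.x ω k⌋ := rfl
  have h0 : (0 : ℝ) < 2 ^ J := by positivity
  have h1 := Int.floor_le ((2 : ℝ) ^ J * F.x ω k)
  have h2 := Int.lt_floor_add_one ((2 : ℝ) ^ J * F.x ω k)
  rw [e1]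
  have e2 : F.x ω k - (⌊(2 : ℝ) ^ J * F.x ω k⌋ : ℝ) / 2 ^ J =
      (2 ^ J * F.x ω k - ⌊(2 : ℝ) ^ J * F.x ω k⌋) / 2 ^ J := by
    field_simp
  rw [e2, abs_div, abs_of_pos h0]
  refine div_le_div_of_nonneg_right ?_ h0.le
  rw [abs_le]
  constructor <;> linarith

/-- The polynomial of the point and of a velocity. -/
noncomputable def dxp (k : Fin m) (x v t : ℝ) : MvPolynomial (Option (Fin m)) ℝ :=
  X (some k) - (C (x - v * t) + C v * X none)

theorem dxp_eval (k : Fin m) (x v t : ℝ) (b : Option (Fin m) → ℝ) :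
    eval b (dxp k x v t) = b (some k) - (x + v * (b none - t)) := by
  unfold dxp
  simp only [map_sub, map_add, map_mul, eval_X, eval_C]
  ring

theorem dxp_deg (k : Fin m) (x v t : ℝ) : (dxp k x v t).totalDegree ≤ 1 := by
  unfold dxp
  refine (totalDegree_sub _ _).trans (max_le (totalDegree_X _).le ?_)
  refine (totalDegree_add _ _).trans (max_le ?_ ?_)
  · rw [totalDegree_C]
    exact Nat.zero_le _
  · refine (totalDegree_mul _ _).trans ?_
    rw [totalDegree_C, totalDegree_X]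

theorem dxp_dep {c : ℕ → Fin m} (x v t : ℝ) : DepC c 1 (dxp (c 0) x v t) := by
  intro b b' h1 h2
  rw [dxp_eval, dxp_eval, h1, h2 0 (by norm_num)]

/-- [S] **Separated lines through the exact point**, from the absence of relations for the first
coordinate. -/
theorem sep_fam {F : Fam m J} {c : ℕ → Fin m} {D a w e h N : ℕ} {g : ℕ → ℕ} {κ κ' : ℝ}
    {B₀ B : F.Ω → Prop} {G : PtT F → ℕ → MvPolynomial (Option (Fin m)) ℝ}
    {H : LnT F → ℕ → MvPolynomial (Option (Fin m)) ℝ} (hD : 1 ≤ D) (hN : 1 ≤ N)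
    (hR : RelvF F c 1 a w g D h κ B₀ G) (hL : ChOK F c 1 (fun _ => D) a w e g B₀ G H)
    (hB : Sub B B₀) (hκ0 : 0 ≤ κ) (hP : κ' * Pe F.p B₀ ≤ Pe F.p B) (hκ : κ * (2 * N) < κ')
    (hP0 : 0 < Pe F.p B₀) (hJ : g 0 + h + 3 ≤ J) :
    ∃ B' : F.Ω → Prop, Sub B' B ∧ Pe F.p B / 2 ≤ Pe F.p B' ∧ ∀ ω, B' ω →
      ∃ ν : Fin N → F.Ω, (∀ i, B (ν i) ∧ ptr F J (ν i) = ptr F J ω) ∧
        (∀ i, 2 ^ a / 2 ^ (g 0 + h + 3) ≤ |bd F ω (some (c 0)) - bd F (ν i) (some (c 0))|) ∧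
        ∀ i j, i ≠ j →
          2 ^ a / 2 ^ (g 0 + h + 3) ≤ |bd F (ν i) (some (c 0)) - bd F (ν j) (some (c 0))| := by
  obtain ⟨σ, hσe⟩ : ∃ σ : ℝ, σ = 2 ^ a / 2 ^ (g 0 + h + 3) := ⟨_, rfl⟩
  rw [← hσe]
  have hσ : 0 < σ := by rw [hσe]; positivity
  have hN0 : (0 : ℝ) < N := by exact_mod_cast hN
  have hne : Nonempty F.Ω := by
    by_contra hcon
    have : IsEmpty F.Ω := not_nonempty_iff.1 hcon
    have h1 : Pe F.p B₀ = 0 := by
      rw [Pool.JVE.pe_sum]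
      simp
    linarith
  obtain ⟨v, hv⟩ : ∃ v : F.Ω → ℝ, v = fun ω => bd F ω (some (c 0)) := ⟨_, rfl⟩
  obtain ⟨f, hf⟩ := sep_cover (ptr F J) v B hσ N
  obtain ⟨B', hB'⟩ : ∃ B' : F.Ω → Prop, B' = fun ω => B ω ∧ ∃ ν : Fin N → F.Ω,
      (∀ i, B (ν i) ∧ ptr F J (ν i) = ptr F J ω) ∧ (∀ i, σ ≤ |v ω - v (ν i)|) ∧
        ∀ i j, i ≠ j → σ ≤ |v (ν i) - v (ν j)| := ⟨_, rfl⟩
  obtain ⟨Bi, hBi⟩ : ∃ Bi : ℕ → F.Ω → Prop, Bi = fun i ω => B ω ∧
      |v ω - v (f i (ptr F J ω))| < σ := ⟨_, rfl⟩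
  have hBiB : ∀ i, Sub (Bi i) B := fun i ω hω => by
    rw [hBi] at hω
    exact hω.1
  obtain ⟨M, hM⟩ : ∃ M : ℝ, M = 1 / 2 ^ (g 0 + h + 2) := ⟨_, rfl⟩
  have hM0 : 0 < M := by rw [hM]; positivity
  have hJM : (1 : ℝ) / 2 ^ J ≤ 1 / 2 ^ (g 0 + h + 3) :=
    one_div_le_one_div_of_le (by positivity) (pow_le_pow_right₀ (by norm_num) hJ)
  have hM2 : (1 : ℝ) / 2 ^ (g 0 + h + 3) + 1 / 2 ^ (g 0 + h + 3) = M := by
    rw [hM]
    have : (2 : ℝ) ^ (g 0 + h + 3) = 2 ^ (g 0 + h + 2) * 2 := by ring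
    rw [this]
    field_simp
    norm_num
  -- the near lines
  have hsm : ∀ i < N, Pe F.p (Bi i) ≤ κ * Pe F.p B₀ := by
    intro i _
    rcases (Pe_nonneg F.isLaw (Bi i)).eq_or_lt with h0 | h0
    · rw [← h0]
      exact mul_nonneg hκ0 hP0.le
    by_contra hcon
    push Not at hcon
    have q1 : ∀ ω, Bi i ω → |eval (bt F ω) (dxp (c 0) (((ptr F J ω).1 (c 0) : ℝ) / 2 ^ J)
        (v (f i (ptr F J ω))) (((ptr F J ω).2.1 : ℝ) / 2 ^ J))| ≤ M := by
      intro ω _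
      rw [dxp_eval]
      have e1 : bt F ω none = F.t ω := rfl
      have e2 : bt F ω (some (c 0)) = F.x ω (c 0) := rfl
      have e3 : ((ptr F J ω).2.1 : ℝ) / 2 ^ J = F.t ω := rfl
      rw [e3, e1, e2, sub_self, mul_zero, add_zero]
      refine (x_ptr F ω (c 0)).trans (hJM.trans ?_)
      rw [← hM2]
      have : (0 : ℝ) < 1 / 2 ^ (g 0 + h + 3) := by positivity
      linarith
    have q2 : ∀ ω, Bi i ω → ∀ b, NBx c (G (ptr F J ω)) g a (F.t ω) 1 b →
        |eval b (dxp (c 0) (((ptr F J ω).1 (c 0) : ℝ) / 2 ^ J)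
          (v (f i (ptr F J ω))) (((ptr F J ω).2.1 : ℝ) / 2 ^ J)) -
          eval b (dxp (c 0) ((slam F w ω).1.1 (c 0)) ((slam F w ω).1.2 (c 0)) 0)| ≤ M := by
      intro ω hω b hb
      rw [dxp_eval, dxp_eval]
      have e3 : ((ptr F J ω).2.1 : ℝ) / 2 ^ J = F.t ω := rfl
      have e4 : (slam F w ω).1.1 (c 0) = F.u ω (c 0) := rfl
      have e5 : (slam F w ω).1.2 (c 0) = F.d ω (c 0) := rfl
      rw [e3, e4, e5]
      have e6 : F.x ω (c 0) = F.u ω (c 0) + F.t ω * F.d ω (c 0) := rfl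
      have e7 : b (some (c 0)) - (((ptr F J ω).1 (c 0) : ℝ) / 2 ^ J +
          v (f i (ptr F J ω)) * (b none - F.t ω)) - (b (some (c 0)) -
          (F.u ω (c 0) + F.d ω (c 0) * (b none - 0))) =
          (F.x ω (c 0) - ((ptr F J ω).1 (c 0) : ℝ) / 2 ^ J) +
            (F.d ω (c 0) - v (f i (ptr F J ω))) * (b none - F.t ω) := by
        rw [e6]
        ring
      rw [e7]
      have h1 : |F.d ω (c 0) - v (f i (ptr F J ω))| ≤ σ := by
        rw [hBi] at hω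
        have h2 := hω.2
        rw [hv] at h2
        rw [hv]
        exact h2.le
      refine (abs_add_le _ _).trans ?_
      rw [← hM2, abs_mul]
      refine add_le_add ((x_ptr F ω (c 0)).trans hJM) ?_
      calc |F.d ω (c 0) - v (f i (ptr F J ω))| * |b none - F.t ω| ≤ σ * (1 / 2 ^ a) :=
            mul_le_mul h1 hb.1 (abs_nonneg _) hσ.le
        _ = 1 / 2 ^ (g 0 + h + 3) := by
            rw [hσe]
            field_simp
    obtain ⟨B'', k1, k2, k3⟩ := hR (Bi i) (fun ω hω => hB ω (hBiB i ω hω)) hcon.le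
      (fun y => dxp (c 0) ((y.1 (c 0) : ℝ) / 2 ^ J) (v (f i y)) ((y.2.1 : ℝ) / 2 ^ J))
      (fun s => dxp (c 0) (s.1.1 (c 0)) (s.1.2 (c 0)) 0) M
      (fun y => (dxp_deg _ _ _ _).trans hD) (fun s => (dxp_deg _ _ _ _).trans hD)
      (fun y => dxp_dep _ _ _) (fun s => dxp_dep _ _ _) hM0 q1 q2
    -- two points of the box
    have h1 : 0 < Pe F.p B'' := lt_of_lt_of_le (half_pos h0) k2
    obtain ⟨ω, hω⟩ : ∃ ω, B'' ω := by
      by_contra hcon
      push Not at hcon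
      have : Pe F.p B'' = 0 := by
        rw [Pool.JVE.pe_sum]
        exact Finset.sum_eq_zero fun ω _ => if_neg (hcon ω)
      linarith
    obtain ⟨γ, hγ⟩ : ∃ γ, γ = eval (bt F ω) (G (ptr F J ω) 0) := ⟨_, rfl⟩
    have hbox : ∀ s : ℝ, |s| ≤ 1 / 2 ^ g 0 → NBx c (G (ptr F J ω)) g a (F.t ω) 1
        (Function.update (bt F ω) (some (c 0)) (γ + s)) := by
      intro s hs
      have e0 : Function.update (bt F ω) (some (c 0)) (γ + s) none = F.t ω :=
        Function.update_of_ne (by simp) _ _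
      refine ⟨?_, fun l hl => ?_⟩
      · rw [e0, sub_self, abs_zero]
        positivity
      · have e1 : l = 0 := by omega
        subst e1
        rw [Function.update_self, hL.depG (ptr F J ω) 0 _ (bt F ω) e0
          (fun l hl => absurd hl (Nat.not_lt_zero l)), ← hγ, add_sub_cancel_left]
        exact hs
    have hg0 : (0 : ℝ) < 1 / 2 ^ g 0 := by positivity
    have h2 := k3 ω hω _ (hbox (1 / 2 ^ g 0) (abs_of_pos hg0).le)
    have h3 := k3 ω hω _ (hbox (-(1 / 2 ^ g 0)) (by rw [abs_neg, abs_of_pos hg0]))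
    rw [dxp_eval, Function.update_self, Function.update_of_ne (by simp)] at h2 h3
    have e2 : 2 ^ h * M = 1 / 2 ^ g 0 / 4 := by
      rw [hM]
      have : (2 : ℝ) ^ (g 0 + h + 2) = 2 ^ g 0 * 2 ^ h * 4 := by ring
      rw [this]
      field_simp
    rw [e2] at h2 h3
    have h4 := (abs_le.1 h2).2
    have h5 := (abs_le.1 h3).1
    linarith
  refine ⟨B', fun ω hω => by
    rw [hB'] at hω
    exact hω.1, ?_, fun ω hω => ?_⟩
  · have h2 : Pe F.p B ≤ Pe F.p B' + Pe F.p (fun ω => ∃ i < N, Bi i ω) := by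
      refine Pe_or F.isLaw fun ω hω => ?_
      rcases hf ω hω with h3 | ⟨i, hi, -, h4⟩
      · left
        rw [hB']
        exact ⟨hω, h3⟩
      · right
        refine ⟨i, hi, ?_⟩
        rw [hBi]
        exact ⟨hω, h4⟩
    have h3 : Pe F.p (fun ω => ∃ i < N, Bi i ω) ≤ N * (κ * Pe F.p B₀) :=
      Pe_cover F.isLaw N (fun _ h => h) hsm
    have h4 : κ * (2 * N) * Pe F.p B₀ ≤ κ' * Pe F.p B₀ :=
      mul_le_mul_of_nonneg_right hκ.le hP0.le
    linarith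
  · rw [hB'] at hω
    obtain ⟨-, ν, h1, h2, h3⟩ := hω
    rw [hv] at h2 h3
    exact ⟨ν, h1, h2, h3⟩

end Pool.NVX
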